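import Mathlib

set_option autoImplicit false

open Set

namespace Pool.Agent.R190.Fee

/-- The Cayley graph of the free group on `n` free generators. -/
def cayley (n : ℕ) : SimpleGraph (FreeGroup (Fin n)) :=
  SimpleGraph.fromRel fun g h => ∃ i : Fin n, h = g * FreeGroup.of i

/-- The set `X` of infinite connected subtrees of the Cayley graph that contain the identity.
A connected subgraph of a tree is the subgraph induced on its vertex set, so a subtree is
given by its vertex set. -/
@[ext] structure RTree (n : ℕ) where
  verts : Set (FreeGroup (Fin n))
  one_mem : 1 ∈ verts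
  infinite : verts.Infinite
  connected : ((cayley n).induce verts).Connected

variable {n : ℕ}

/-- The ball of radius `r` about the identity in a subtree: its vertices of word length at most
`r`. -/
def ball (r : ℕ) (T : RTree n) : Set (FreeGroup (Fin n)) :=
  {g | g ∈ T.verts ∧ FreeGroup.norm g ≤ r}

/-- Two trees are close when they have the same `r`-ball about the identity for a large `r`. -/
instance : TopologicalSpace (RTree n) :=
  TopologicalSpace.generateFrom {U | ∃ (T : RTree n) (r : ℕ), U = {S | ball r S = ball r T}}

/-- The trace on the transversal of the leaf through `T`: all trees `g⁻¹ T` with `g` a vertex of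
`T`. -/
def leaf (T : RTree n) : Set (RTree n) :=
  {S | ∃ g ∈ T.verts, S.verts = (fun x => g⁻¹ * x) '' T.verts}

/-- A set of trees is saturated when it is a union of leaves. -/
def IsSaturated (A : Set (RTree n)) : Prop := ∀ T ∈ A, leaf T ⊆ A

/-- Minimal sets: nonempty closed saturated sets that contain no smaller such set. -/
def IsMinimalSet (M : Set (RTree n)) : Prop :=
  (M.Nonempty ∧ IsClosed M ∧ IsSaturated M) ∧
    ∀ A : Set (RTree n), A ⊆ M → A.Nonempty → IsClosed A → IsSaturated A → A = M

/-- Compact leaves: leaves that meet the transversal in a finite set. -/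
def IsCompactLeaf (M : Set (RTree n)) : Prop :=
  ∃ T : RTree n, M = leaf T ∧ (leaf T).Finite

/-- The leaf through `S` is dense in `M`. -/
def IsDenseIn (M : Set (RTree n)) (S : RTree n) : Prop := M ⊆ closure (leaf S)

/-- The substructure: the union of the leaves of `M` that are not dense in `M`. -/
def substructure (M : Set (RTree n)) : Set (RTree n) := {S | S ∈ M ∧ ¬ IsDenseIn M S}

/-- `AtLevel k M`: the closed saturated set `M` is at level `k`. -/
def AtLevel : ℕ → Set (RTree n) → Prop
  | 0, M => IsCompactLeaf M ∨ IsMinimalSet M
  | k + 1, M => closure (substructure M) ⊂ M ∧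
      (∀ S ∈ substructure M, ∃ j, ∃ _ : j ≤ k, AtLevel j (closure (leaf S))) ∧
      ∃ S ∈ substructure M, AtLevel k (closure (leaf S))
  termination_by k => k

end Pool.Agent.R190.Fee
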