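import Mathlib
import Pool.Agent.R190.Fee.Defs

set_option autoImplicit false

open Set

namespace Pool.Agent.R190.Fee

variable {n : ℕ}

/-- balls of larger radius determine the smaller ones -/
lemma ball_mono_eq {r s : ℕ} (h : r ≤ s) {S T : RTree n} (e : ball s S = ball s T) :
    ball r S = ball r T := by
  ext g
  constructor
  · rintro ⟨h1, h2⟩
    have : g ∈ ball s T := e ▸ ⟨h1, h2.trans h⟩
    exact ⟨this.1, h2⟩
  · rintro ⟨h1, h2⟩
    have : g ∈ ball s S := e ▸ ⟨h1, h2.trans h⟩
    exact ⟨this.1, h2⟩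

lemma eq_of_balls {S T : RTree n} (e : ∀ r, ball r S = ball r T) : S = T := by
  ext g
  constructor
  · intro h
    have : g ∈ ball g.norm T := e g.norm ▸ ⟨h, le_rfl⟩
    exact this.1
  · intro h
    have : g ∈ ball g.norm S := e g.norm ▸ ⟨h, le_rfl⟩
    exact this.1

lemma isBasis : TopologicalSpace.IsTopologicalBasis
    {U : Set (RTree n) | ∃ (T : RTree n) (r : ℕ), U = {S | ball r S = ball r T}} := by
  refine ⟨?_, ?_, rfl⟩
  · rintro U ⟨T1, r1, rfl⟩ V ⟨T2, r2, rfl⟩ S ⟨h1, h2⟩
    refine ⟨{R | ball (max r1 r2) R = ball (max r1 r2) S}, ⟨S, _, rfl⟩, rfl, ?_⟩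
    intro R hR
    exact ⟨(ball_mono_eq (le_max_left _ _) hR).trans h1,
      (ball_mono_eq (le_max_right _ _) hR).trans h2⟩
  · rw [sUnion_eq_univ_iff]
    intro T
    exact ⟨_, ⟨T, 0, rfl⟩, rfl⟩

/-- closures in the space of trees -/
lemma mem_closure_iff' {S : RTree n} {A : Set (RTree n)} :
    S ∈ closure A ↔ ∀ r, ∃ T ∈ A, ball r T = ball r S := by
  rw [isBasis.mem_closure_iff]
  constructor
  · intro h r
    obtain ⟨T, h1, h2⟩ := h _ ⟨S, r, rfl⟩ rfl
    exact ⟨T, h2, h1⟩
  · rintro h U ⟨T, r, rfl⟩ hS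
    obtain ⟨R, h1, h2⟩ := h r
    exact ⟨R, h2.trans hS, h1⟩

/-- The topology is that of the problem file: `T_j` converges to `T` iff for every `r` the
`r`-balls about the identity eventually coincide. -/
lemma tendsto_iff {u : ℕ → RTree n} {T : RTree n} :
    Filter.Tendsto u Filter.atTop (nhds T) ↔
      ∀ r, ∀ᶠ j in Filter.atTop, ball r (u j) = ball r T := by
  rw [isBasis.nhds_hasBasis.tendsto_right_iff]
  constructor
  · intro h r
    exact h {S | ball r S = ball r T} ⟨⟨T, r, rfl⟩, rfl⟩
  · rintro h U ⟨⟨S, r, rfl⟩, hT⟩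
    filter_upwards [h r] with j hj
    exact hj.trans hT

/-! ### The degree -/

/-- the degree homomorphism -/
noncomputable def deg : FreeGroup (Fin n) →* Multiplicative ℤ :=
  FreeGroup.lift fun _ => Multiplicative.ofAdd 1

lemma abs_deg_mk (L : List (Fin n × Bool)) :
    |Multiplicative.toAdd (deg (FreeGroup.mk L))| ≤ L.length := by
  induction L with
  | nil =>
    have : (FreeGroup.mk ([] : List (Fin n × Bool))) = 1 := rfl
    rw [this]; simp
  | cons a L ih =>
    have e : FreeGroup.mk (a :: L) = FreeGroup.mk [a] * FreeGroup.mk L := by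
      rw [FreeGroup.mul_mk]; rfl
    rw [e, map_mul, toAdd_mul]
    have h1 : |Multiplicative.toAdd (deg (FreeGroup.mk [a]))| ≤ 1 := by
      obtain ⟨i, b⟩ := a
      cases b
      · simp [deg]
      · simp [deg]
    have := abs_add_le (Multiplicative.toAdd (deg (FreeGroup.mk [a])))
      (Multiplicative.toAdd (deg (FreeGroup.mk L)))
    simp only [List.length_cons]; push_cast
    linarith

lemma abs_deg_le (g : FreeGroup (Fin n)) : |Multiplicative.toAdd (deg g)| ≤ g.norm := by
  have := abs_deg_mk (n := n) g.toWord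
  rwa [FreeGroup.mk_toWord] at this

/-! ### Bi-infinite paths -/

section path
variable {G : Type*} [Group G]

/-- partial products -/
def pp (f : ℕ → G) : ℕ → G
  | 0 => 1
  | k + 1 => pp f k * f k

/-- the path with given steps -/
def path (w : ℤ → G) : ℤ → G
  | Int.ofNat k => pp (fun j => w j) k
  | Int.negSucc k => pp (fun j => (w (Int.negSucc j))⁻¹) (k + 1)

lemma path_zero (w : ℤ → G) : path w 0 = 1 := rfl

lemma path_succ (w : ℤ → G) (i : ℤ) : path w (i + 1) = path w i * w i := by
  cases i with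
  | ofNat k => rfl
  | negSucc k =>
    cases k with
    | zero =>
      change (1 : G) = (1 * (w (Int.negSucc 0))⁻¹) * w (Int.negSucc 0)
      group
    | succ k =>
      have : Int.negSucc (k + 1) + 1 = Int.negSucc k := rfl
      rw [this]
      change _ = (pp (fun j => (w (Int.negSucc j))⁻¹) (k + 1) * (w (Int.negSucc (k + 1)))⁻¹) * _
      rw [inv_mul_cancel_right]
      rfl

lemma path_unique {w : ℤ → G} {f f' : ℤ → G} (h0 : f 0 = f' 0)
    (h : ∀ i, f (i + 1) = f i * w i) (h' : ∀ i, f' (i + 1) = f' i * w i) (i : ℤ) :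
    f i = f' i := by
  induction i using Int.induction_on with
  | zero => exact h0
  | succ i ih => rw [h, h', ih]
  | pred i ih =>
    have e := h (-(i : ℤ) - 1)
    have e' := h' (-(i : ℤ) - 1)
    rw [sub_add_cancel] at e e'
    rw [ih, e'] at e
    exact (mul_right_cancel e).symm

lemma path_shift (w : ℤ → G) (j i : ℤ) :
    path (fun i => w (i + j)) i = (path w j)⁻¹ * path w (i + j) := by
  refine path_unique (w := fun i => w (i + j)) (f := path fun i => w (i + j))
    (f' := fun i => (path w j)⁻¹ * path w (i + j)) ?_ ?_ ?_ i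
  · simp [path_zero]
  · intro i; exact path_succ _ _
  · intro i
    have : i + 1 + j = (i + j) + 1 := by ring
    simp only [this, path_succ, mul_assoc]

end path

end Pool.Agent.R190.Fee
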