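import Mathlib
import Pool.Agent.R190.Fee.Basic

set_option autoImplicit false

open Set

namespace Pool.Agent.R190.Fee

variable {n : ℕ}

/-- The data of two different generators. -/
structure Two (n : ℕ) where
  a : Fin n
  b : Fin n
  ne : a ≠ b

namespace Two

variable (C : Two n)

/-- the generator of a letter -/
def gen (x : Bool) : FreeGroup (Fin n) := FreeGroup.of (if x then C.b else C.a)

lemma gen_inj {x y : Bool} (h : C.gen x = C.gen y) : x = y := by
  have := FreeGroup.of_injective h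
  cases x <;> cases y <;> simp_all [C.ne, C.ne.symm]

/-- the vertices of the line of a word -/
def pt (u : ℤ → Bool) (i : ℤ) : FreeGroup (Fin n) := path (fun i => C.gen (u i)) i

lemma pt_zero (u : ℤ → Bool) : C.pt u 0 = 1 := rfl

lemma pt_succ (u : ℤ → Bool) (i : ℤ) : C.pt u (i + 1) = C.pt u i * C.gen (u i) := path_succ _ _

lemma deg_gen (x : Bool) : Multiplicative.toAdd (deg (C.gen x)) = 1 := by
  simp [deg, gen]

lemma deg_pt (u : ℤ → Bool) (i : ℤ) : Multiplicative.toAdd (deg (C.pt u i)) = i := by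
  induction i using Int.induction_on with
  | zero => simp [pt_zero]
  | succ i ih => rw [pt_succ, map_mul, toAdd_mul, ih, deg_gen]
  | pred i ih =>
    have e := C.pt_succ u (-(i : ℤ) - 1)
    rw [sub_add_cancel] at e
    rw [e, map_mul, toAdd_mul, deg_gen] at ih
    linarith

lemma norm_gen (x : Bool) : (C.gen x).norm = 1 := by simp [gen]

lemma norm_pt_le (u : ℤ → Bool) (i : ℤ) : ((C.pt u i).norm : ℤ) ≤ |i| := by
  induction i using Int.induction_on with
  | zero => simp [pt_zero]
  | succ i ih =>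
    rw [pt_succ]
    have := FreeGroup.norm_mul_le (C.pt u i) (C.gen (u i))
    rw [norm_gen] at this
    have h1 : |(i : ℤ)| = i := abs_of_nonneg (by positivity)
    have h2 : |(i : ℤ) + 1| = i + 1 := abs_of_nonneg (by positivity)
    rw [h1] at ih
    rw [h2]
    have h3 : (((C.pt u i * C.gen (u i)).norm : ℕ) : ℤ) ≤ (((C.pt u i).norm + 1 : ℕ) : ℤ) := by
      exact_mod_cast this
    push_cast at h3
    linarith
  | pred i ih =>
    have e := C.pt_succ u (-(i : ℤ) - 1)
    rw [sub_add_cancel] at e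
    have e2 : C.pt u (-(i : ℤ) - 1) = C.pt u (-(i : ℤ)) * (C.gen (u (-(i : ℤ) - 1)))⁻¹ := by
      rw [e]; group
    rw [e2]
    have := FreeGroup.norm_mul_le (C.pt u (-(i : ℤ))) (C.gen (u (-(i : ℤ) - 1)))⁻¹
    rw [FreeGroup.norm_inv_eq, norm_gen] at this
    have h1 : |(-(i : ℤ))| = i := by rw [abs_neg]; exact abs_of_nonneg (by positivity)
    have h2 : |(-(i : ℤ)) - 1| = i + 1 := by
      rw [show -(i : ℤ) - 1 = -((i : ℤ) + 1) by ring, abs_neg]
      exact abs_of_nonneg (by positivity)
    rw [h1] at ih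
    rw [h2]
    have h3 : (((C.pt u (-(i : ℤ)) * (C.gen (u (-(i : ℤ) - 1)))⁻¹).norm : ℕ) : ℤ) ≤
        (((C.pt u (-(i : ℤ))).norm + 1 : ℕ) : ℤ) := by
      exact_mod_cast this
    push_cast at h3
    linarith

lemma pt_inj (u : ℤ → Bool) : Function.Injective (C.pt u) := by
  intro i j h
  rw [← C.deg_pt u i, ← C.deg_pt u j, h]

/-- The line of a word, as a rooted tree. -/
def line (u : ℤ → Bool) : RTree n where
  verts := range (C.pt u)
  one_mem := ⟨0, C.pt_zero u⟩
  infinite := infinite_range_of_injective (C.pt_inj u)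
  connected := by
    have adj : ∀ i : ℤ, ((cayley n).induce (range (C.pt u))).Adj ⟨C.pt u i, i, rfl⟩
        ⟨C.pt u (i + 1), i + 1, rfl⟩ := by
      intro i
      rw [SimpleGraph.induce_adj]
      change (cayley n).Adj (C.pt u i) (C.pt u (i + 1))
      rw [cayley, SimpleGraph.fromRel_adj]
      refine ⟨?_, Or.inl ⟨_, C.pt_succ u i⟩⟩
      intro h
      have := C.pt_inj u h
      omega
    have reach : ∀ i : ℤ, ((cayley n).induce (range (C.pt u))).Reachable ⟨C.pt u 0, 0, rfl⟩
        ⟨C.pt u i, i, rfl⟩ := by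
      intro i
      induction i using Int.induction_on with
      | zero => exact SimpleGraph.Reachable.refl _
      | succ i ih => exact ih.trans (adj i).reachable
      | pred i ih =>
        have := adj (-(i : ℤ) - 1)
        refine ih.trans ?_
        have h2 := this.symm.reachable
        have h3 : -(i : ℤ) - 1 + 1 = -i := by ring
        simp only [h3] at h2
        exact h2
    have : Nonempty (range (C.pt u)) := ⟨⟨C.pt u 0, 0, rfl⟩⟩
    refine SimpleGraph.Connected.mk ?_
    rintro ⟨_, i, rfl⟩ ⟨_, j, rfl⟩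
    exact (reach i).symm.trans (reach j)

lemma mem_ball_line {u : ℤ → Bool} {r : ℕ} {g : FreeGroup (Fin n)} :
    g ∈ ball r (C.line u) ↔ ∃ i : ℤ, |i| ≤ r ∧ g = C.pt u i := by
  constructor
  · rintro ⟨⟨i, rfl⟩, h⟩
    refine ⟨i, ?_, rfl⟩
    have := abs_deg_le (C.pt u i)
    rw [deg_pt] at this
    exact this.trans (by exact_mod_cast h)
  · rintro ⟨i, h, rfl⟩
    refine ⟨⟨i, rfl⟩, ?_⟩
    have := (C.norm_pt_le u i).trans h
    exact_mod_cast this

lemma ball_line_eq_iff {u v : ℤ → Bool} {r : ℕ} :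
    ball r (C.line u) = ball r (C.line v) ↔ ∀ i : ℤ, |i| ≤ r → C.pt u i = C.pt v i := by
  constructor
  · intro h i hi
    have : C.pt u i ∈ ball r (C.line v) := h ▸ C.mem_ball_line.2 ⟨i, hi, rfl⟩
    obtain ⟨j, hj, e⟩ := C.mem_ball_line.1 this
    have : i = j := by rw [← C.deg_pt u i, ← C.deg_pt v j, e]
    rw [e, this]
  · intro h
    ext g
    rw [mem_ball_line, mem_ball_line]
    constructor
    · rintro ⟨i, hi, rfl⟩; exact ⟨i, hi, h i hi⟩
    · rintro ⟨i, hi, rfl⟩; exact ⟨i, hi, (h i hi).symm⟩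

/-- agreement on a window gives the same ball -/
lemma ball_of_agree {u v : ℤ → Bool} {r : ℕ} (h : ∀ i : ℤ, |i| ≤ r → u i = v i) :
    ball r (C.line u) = ball r (C.line v) := by
  rw [ball_line_eq_iff]
  intro i
  induction i using Int.induction_on with
  | zero => intro _; rfl
  | succ i ih =>
    intro hi
    have h1 : |(i : ℤ)| ≤ r := by
      rw [abs_of_nonneg (by positivity)] at hi ⊢; linarith
    rw [pt_succ, pt_succ, ih h1, h _ h1]
  | pred i ih =>
    intro hi
    have h0 : |(-(i : ℤ))| ≤ r := by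
      rw [show -(i : ℤ) - 1 = -((i : ℤ) + 1) by ring, abs_neg,
        abs_of_nonneg (by positivity)] at hi
      rw [abs_neg, abs_of_nonneg (by positivity)]; linarith
    have e := C.pt_succ u (-(i : ℤ) - 1)
    have e' := C.pt_succ v (-(i : ℤ) - 1)
    rw [sub_add_cancel] at e e'
    rw [ih h0, h _ hi, e'] at e
    exact (mul_right_cancel e).symm

/-- the same ball gives agreement on a smaller window -/
lemma agree_of_ball {u v : ℤ → Bool} {r : ℕ} (h : ball (r + 1) (C.line u) = ball (r + 1) (C.line v))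
    {i : ℤ} (hi : |i| ≤ r) : u i = v i := by
  rw [ball_line_eq_iff] at h
  have h1 := h i (hi.trans (by push_cast; linarith))
  have h2 := h (i + 1) (by
    have := abs_add_le i 1
    rw [abs_one] at this
    push_cast; linarith)
  rw [pt_succ, pt_succ, h1] at h2
  exact C.gen_inj (mul_left_cancel h2)

lemma line_inj : Function.Injective C.line := by
  intro u v h
  ext i
  have : ball (i.natAbs + 1) (C.line u) = ball (i.natAbs + 1) (C.line v) := by rw [h]
  rw [C.agree_of_ball this (i := i) (by simp)]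

/-- shifted word -/
def _root_.Pool.Agent.R190.Fee.shift (j : ℤ) (u : ℤ → Bool) : ℤ → Bool := fun i => u (i + j)

lemma image_line (u : ℤ → Bool) (j : ℤ) :
    (fun x => (C.pt u j)⁻¹ * x) '' (C.line u).verts = (C.line (shift j u)).verts := by
  have key : ∀ i, C.pt (shift j u) i = (C.pt u j)⁻¹ * C.pt u (i + j) := by
    intro i
    exact path_shift (fun i => C.gen (u i)) j i
  ext g
  constructor
  · rintro ⟨_, ⟨i, rfl⟩, rfl⟩
    refine ⟨i - j, ?_⟩
    rw [key, sub_add_cancel]
  · rintro ⟨i, rfl⟩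
    exact ⟨C.pt u (i + j), ⟨_, rfl⟩, (key i).symm⟩

lemma leaf_line (u : ℤ → Bool) : leaf (C.line u) = C.line '' range (fun j => shift j u) := by
  ext S
  constructor
  · rintro ⟨_, ⟨j, rfl⟩, h⟩
    refine ⟨_, ⟨j, rfl⟩, ?_⟩
    ext1
    rw [h, ← C.image_line]
  · rintro ⟨_, ⟨j, rfl⟩, rfl⟩
    exact ⟨C.pt u j, ⟨j, rfl⟩, (C.image_line u j).symm⟩

end Two

/-- `Below v u`: the word `v` lies in the orbit closure of `u`. -/
def Below (v u : ℤ → Bool) : Prop := ∀ r : ℕ, ∃ j : ℤ, ∀ i : ℤ, |i| ≤ r → v i = u (i + j)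

lemma Below.refl (u : ℤ → Bool) : Below u u := fun _ => ⟨0, fun i _ => by simp⟩

lemma Below.trans {u v w : ℤ → Bool} (h1 : Below u v) (h2 : Below v w) : Below u w := by
  intro r
  obtain ⟨j, hj⟩ := h1 r
  obtain ⟨k, hk⟩ := h2 (r + j.natAbs)
  refine ⟨j + k, fun i hi => ?_⟩
  rw [hj i hi, hk, add_assoc]
  have := abs_add_le i j
  push_cast
  linarith

lemma shift_below (j : ℤ) (u : ℤ → Bool) : Below (shift j u) u := fun _ => ⟨j, fun _ _ => rfl⟩

lemma shift_shift (j k : ℤ) (u : ℤ → Bool) : shift j (shift k u) = shift (j + k) u := by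
  ext i; simp [shift, add_assoc]

lemma below_shift (j : ℤ) (u : ℤ → Bool) : Below u (shift j u) := by
  have := shift_below (-j) (shift j u)
  rw [shift_shift, neg_add_cancel] at this
  have e : shift 0 u = u := by ext i; simp [shift]
  rwa [e] at this

namespace Two

variable (C : Two n)

lemma closure_leaf_line (u : ℤ → Bool) : closure (leaf (C.line u)) = C.line '' {v | Below v u} := by
  ext S
  rw [mem_closure_iff', leaf_line]
  constructor
  · intro h
    have h' : ∀ r : ℕ, ∃ j : ℤ, ball r (C.line (shift j u)) = ball r S := by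
      intro r
      obtain ⟨_, ⟨_, ⟨j, rfl⟩, rfl⟩, h2⟩ := h r
      exact ⟨j, h2⟩
    choose j hj using h'
    let v : ℤ → Bool := fun i => u (i + j (i.natAbs + 1))
    have hv : ∀ r : ℕ, ∀ i : ℤ, |i| ≤ r → v i = u (i + j (r + 1)) := by
      intro r i hi
      have h1 : ball (i.natAbs + 1) (C.line (shift (j (r + 1)) u)) = ball (i.natAbs + 1) S := by
        refine ball_mono_eq ?_ (hj (r + 1))
        have : (i.natAbs : ℤ) ≤ r := by rw [← Int.abs_eq_natAbs]; exact hi
        omega
      have h2 := (hj (i.natAbs + 1)).trans h1.symm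
      exact C.agree_of_ball h2 (i := i) (by simp)
    refine ⟨v, fun r => ⟨j (r + 1), hv r⟩, ?_⟩
    refine eq_of_balls fun r => ?_
    rw [C.ball_of_agree (v := shift (j (r + 1)) u) (hv r)]
    exact ball_mono_eq (Nat.le_succ r) (hj (r + 1))
  · rintro ⟨v, hv, rfl⟩ r
    obtain ⟨j, hj⟩ := hv r
    exact ⟨_, ⟨_, ⟨j, rfl⟩, rfl⟩, (C.ball_of_agree hj).symm⟩

end Two

end Pool.Agent.R190.Fee
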