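import Mathlib
import Pool.Agent.R190.Fee.Line

set_option autoImplicit false

open Set

namespace Pool.Agent.R190.Fee

/-! ### Binary digit sums -/

/-- number of ones in the binary expansion -/
def ds (m : ℕ) : ℕ := if h : m = 0 then 0 else ds (m / 2) + m % 2
  termination_by m
  decreasing_by omega

lemma ds_zero : ds 0 = 0 := by rw [ds]; simp

lemma ds_pos {m : ℕ} (h : m ≠ 0) : ds m = ds (m / 2) + m % 2 := by
  rw [ds]; simp [h]

lemma ds_pow_add {N m : ℕ} (h : m < 2 ^ N) : ds (2 ^ N + m) = ds m + 1 := by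
  induction N generalizing m with
  | zero =>
    have : m = 0 := by simpa using h
    subst this
    rw [ds_pos (by simp)]
    simp [ds_zero]
  | succ N ih =>
    have e1 : (2 ^ (N + 1) + m) / 2 = 2 ^ N + m / 2 := by rw [pow_succ]; omega
    have e2 : (2 ^ (N + 1) + m) % 2 = m % 2 := by rw [pow_succ]; omega
    have h2 : m / 2 < 2 ^ N := by rw [pow_succ] at h; omega
    rw [ds_pos (by positivity), e1, e2, ih h2]
    by_cases hm : m = 0
    · subst hm; simp [ds_zero]
    · rw [ds_pos hm]; ring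

lemma ds_pow_sub {N t q : ℕ} (ht : t ≤ N) (h1 : 1 ≤ q) (h2 : q ≤ 2 ^ t) :
    N ≤ ds (2 ^ N - q) + t := by
  induction N, ht using Nat.le_induction with
  | base => omega
  | succ N hN ih =>
    have h3 : (2 : ℕ) ^ t ≤ 2 ^ N := Nat.pow_le_pow_right (by norm_num) hN
    have e : 2 ^ (N + 1) - q = 2 ^ N + (2 ^ N - q) := by rw [pow_succ]; omega
    rw [e, ds_pow_add (by omega)]
    omega

/-- `2 ^ k - 1` has digit sum `k` -/
lemma ds_pred (k : ℕ) : ds (2 ^ k - 1) = k := by
  induction k with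
  | zero => simp [ds_zero]
  | succ k ih =>
    have h3 : 1 ≤ (2 : ℕ) ^ k := Nat.one_le_two_pow
    have e : 2 ^ (k + 1) - 1 = 2 ^ k + (2 ^ k - 1) := by rw [pow_succ]; omega
    rw [e, ds_pow_add (by omega), ih]

/-! ### The words -/

/-- The word of level `k`: the letter `b` at the positions `i ≥ 0` with digit sum less than
`k`. -/
def wd (k : ℕ) (i : ℤ) : Bool := decide (0 ≤ i ∧ ds i.toNat < k)

lemma wd_neg {k : ℕ} {i : ℤ} (h : i < 0) : wd k i = false := by
  simp only [wd, decide_eq_false_iff_not, not_and]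
  intro h'; omega

lemma wd_nat (k m : ℕ) : wd k (m : ℤ) = decide (ds m < k) := by
  simp [wd]

lemma wd_zero (i : ℤ) : wd 0 i = false := by
  simp [wd]

/-- the window comparison: far out, the word `wd (k+1)` near `2 ^ N + m` looks like `wd k` near
`m` -/
lemma wd_window {k N t : ℕ} (hN : t + k + 1 ≤ N) {m : ℕ} (hm : m < 2 ^ N)
    (hds : ds m < k ∨ m = 0) {i : ℤ} (hi : |i| ≤ 2 ^ t) :
    wd k (i + m) = wd (k + 1) (i + ((2 ^ N + m : ℕ) : ℤ)) := by
  have htN : (2 : ℤ) ^ t ≤ 2 ^ N := by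
    exact_mod_cast Nat.pow_le_pow_right (by norm_num) (by omega)
  obtain ⟨hi1, hi2⟩ := abs_le.1 hi
  rcases lt_or_ge (i + m) 0 with h | h
  · -- to the left
    rw [wd_neg h]
    obtain ⟨q, hq⟩ : ∃ q : ℕ, (q : ℤ) = -(i + m) := ⟨(-(i + m)).toNat, by omega⟩
    have hq1 : 1 ≤ q := by omega
    have hq2 : (q : ℤ) ≤ 2 ^ t := by
      have : (0 : ℤ) ≤ m := by positivity
      linarith
    have hq2' : q ≤ 2 ^ t := by exact_mod_cast hq2
    have hqN : q ≤ 2 ^ N := by
      have : (q : ℤ) ≤ 2 ^ N := hq2.trans htN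
      exact_mod_cast this
    have e : i + ((2 ^ N + m : ℕ) : ℤ) = ((2 ^ N - q : ℕ) : ℤ) := by
      rw [Nat.cast_sub hqN]; push_cast; linarith
    rw [e, wd_nat]
    have := ds_pow_sub (N := N) (t := t) (by omega) hq1 hq2'
    symm
    rw [decide_eq_false_iff_not]
    omega
  · obtain ⟨x, hx⟩ : ∃ x : ℕ, (x : ℤ) = i + m := ⟨(i + m).toNat, by omega⟩
    have e : i + ((2 ^ N + m : ℕ) : ℤ) = ((2 ^ N + x : ℕ) : ℤ) := by
      push_cast; linarith
    have hx2 : x < 2 ^ N := by
      by_contra hcon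
      push Not at hcon
      have hq1 : 1 ≤ 2 ^ N - m := by omega
      have hq2 : 2 ^ N - m ≤ 2 ^ t := by
        have h1 : ((2 ^ N : ℕ) : ℤ) ≤ x := by exact_mod_cast hcon
        have h2 : (((2 ^ N - m : ℕ)) : ℤ) ≤ 2 ^ t := by
          rw [Nat.cast_sub hm.le]
          push_cast at h1 ⊢; linarith
        exact_mod_cast h2
      have := ds_pow_sub (N := N) (t := t) (by omega) hq1 hq2
      rw [Nat.sub_sub_self hm.le] at this
      rcases hds with h3 | h3
      · omega
      · subst h3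
        rw [ds_zero] at this
        omega
    rw [e, ← hx, wd_nat, wd_nat, ds_pow_add hx2]
    simp

lemma below_succ (k : ℕ) : Below (wd k) (wd (k + 1)) := by
  intro r
  refine ⟨((2 ^ (r + k + 1) + 0 : ℕ) : ℤ), fun i hi => ?_⟩
  have := wd_window (k := k) (N := r + k + 1) (t := r) le_rfl (m := 0) (by positivity)
    (Or.inr rfl) (i := i) (hi.trans (by exact_mod_cast Nat.lt_two_pow_self.le))
  rw [← this]
  simp

lemma below_mono {j k : ℕ} (h : j ≤ k) : Below (wd j) (wd k) := by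
  induction k, h using Nat.le_induction with
  | base => exact Below.refl _
  | succ k _ ih => exact ih.trans (below_succ k)

/-- the key step -/
lemma below_step {k : ℕ} {v : ℤ → Bool} (h : Below v (wd (k + 1))) (h0 : v 0 = true)
    (hno : ∀ j, v ≠ shift j (wd (k + 1))) : Below v (wd k) := by
  intro r
  -- a radius that excludes all small shifts
  have hbad : ∀ j : ℤ, ∃ R : ℕ, ∃ i : ℤ, |i| ≤ R ∧ v i ≠ wd (k + 1) (i + j) := by
    intro j
    have := hno j
    rw [Ne, funext_iff] at this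
    push Not at this
    obtain ⟨i, hi⟩ := this
    exact ⟨i.natAbs, i, by simp, hi⟩
  choose R hR using hbad
  obtain ⟨j, hj⟩ := h (r + ∑ x ∈ Finset.range (2 ^ (r + k + 1)), R x)
  -- the shift is a natural number of small digit sum
  have hj0 := hj 0 (by simp only [abs_zero]; positivity)
  rw [h0, zero_add] at hj0
  have hj0' : 0 ≤ j ∧ ds j.toNat < k + 1 := by
    have := hj0.symm
    simpa [wd] using this
  obtain ⟨x, rfl⟩ : ∃ x : ℕ, (x : ℤ) = j := ⟨j.toNat, by omega⟩
  have hx : 2 ^ (r + k + 1) ≤ x := by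
    by_contra hcon
    push Not at hcon
    obtain ⟨i, hi1, hi2⟩ := hR x
    refine hi2 (hj i (hi1.trans ?_))
    have : R x ≤ ∑ x ∈ Finset.range (2 ^ (r + k + 1)), R x :=
      Finset.single_le_sum (f := fun x : ℕ => R x) (fun _ _ => Nat.zero_le _)
        (Finset.mem_range.2 hcon)
    push_cast
    have h3 : ((R x : ℕ) : ℤ) ≤ ∑ x ∈ Finset.range (2 ^ (r + k + 1)), (R x : ℤ) := by
      exact_mod_cast this
    have h4 : (0 : ℤ) ≤ r := by positivity
    linarith
  have hx0 : x ≠ 0 := by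
    intro h; subst h
    have : 0 < 2 ^ (r + k + 1) := by positivity
    omega
  -- its leading power
  have hN1 : 2 ^ Nat.log 2 x ≤ x := Nat.pow_log_le_self 2 hx0
  have hN2 : x < 2 ^ (Nat.log 2 x + 1) := Nat.lt_pow_succ_log_self (by norm_num) x
  have hN : r + k + 1 ≤ Nat.log 2 x := by
    have := Nat.log_mono_right (b := 2) hx
    rwa [Nat.log_pow (by norm_num)] at this
  obtain ⟨m, hm⟩ : ∃ m, x = 2 ^ Nat.log 2 x + m := ⟨x - 2 ^ Nat.log 2 x, by omega⟩
  have hmN : m < 2 ^ Nat.log 2 x := by rw [pow_succ] at hN2; omega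
  have hdm : ds m < k := by
    have := hj0'.2
    rw [Int.toNat_natCast, hm, ds_pow_add hmN] at this
    omega
  refine ⟨m, fun i hi => ?_⟩
  have hi' : |i| ≤ 2 ^ r := hi.trans (by exact_mod_cast Nat.lt_two_pow_self.le)
  rw [wd_window hN hmN (Or.inl hdm) hi', ← hm]
  refine hj i (hi.trans ?_)
  push_cast
  have : (0 : ℤ) ≤ ∑ x ∈ Finset.range (2 ^ (r + k + 1)), (R x : ℤ) := by positivity
  linarith

/-- the words below `wd k` -/
lemma below_wd {k : ℕ} {v : ℤ → Bool} (h : Below v (wd k)) :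
    ∃ j ≤ k, ∃ s, v = shift s (wd j) := by
  induction k generalizing v with
  | zero =>
    refine ⟨0, le_rfl, 0, ?_⟩
    ext i
    obtain ⟨j, hj⟩ := h i.natAbs
    rw [hj i (by simp), wd_zero]
    simp [shift, wd_zero]
  | succ k ih =>
    by_cases hv : ∃ p, v p = true
    · obtain ⟨p, hp⟩ := hv
      have h' : Below (shift p v) (wd (k + 1)) := (shift_below p v).trans h
      by_cases hno : ∀ j, shift p v ≠ shift j (wd (k + 1))
      · have := below_step h' (by simpa [shift] using hp) hno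
        obtain ⟨j, hj, s, hs⟩ := ih ((below_shift p v).trans this)
        exact ⟨j, hj.trans (Nat.le_succ k), s, hs⟩
      · push Not at hno
        obtain ⟨j, hj⟩ := hno
        refine ⟨k + 1, le_rfl, j - p, ?_⟩
        ext i
        have := congrFun hj (i - p)
        simp only [shift] at this ⊢
        rw [sub_add_cancel] at this
        rw [this]
        congr 1
        ring
    · push Not at hv
      refine ⟨0, Nat.zero_le _, 0, ?_⟩
      ext i
      simp [shift, wd_zero, hv i]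

/-- different levels are not comparable upwards -/
lemma not_below {j k : ℕ} (h : j < k) : ¬ Below (wd k) (wd j) := by
  intro hb
  obtain ⟨i, hi, s, hs⟩ := below_wd hb
  have hik : i < k := by omega
  have hw : ∀ x : ℤ, wd k x = wd i (x + s) := fun x => congrFun hs x
  have hk0 : wd k 0 = true := by
    rw [show (0 : ℤ) = ((0 : ℕ) : ℤ) from rfl, wd_nat, ds_zero]
    simp; omega
  have h1 := hw 0
  rw [hk0, zero_add] at h1
  have hs0 : 0 ≤ s ∧ ds s.toNat < i := by
    have := h1.symm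
    simpa [wd] using this
  have hi0 : wd i 0 = true := by
    rw [show (0 : ℤ) = ((0 : ℕ) : ℤ) from rfl, wd_nat, ds_zero]
    simp; omega
  have h2 := hw (-s)
  rw [neg_add_cancel, hi0] at h2
  have hs1 : 0 ≤ -s := by
    have : 0 ≤ -s ∧ ds (-s).toNat < k := by simpa [wd] using h2
    exact this.1
  have hs2 : s = 0 := by omega
  subst hs2
  have h3 := hw ((2 ^ i - 1 : ℕ) : ℤ)
  rw [add_zero, wd_nat, wd_nat, ds_pred] at h3
  simp at h3
  omega

/-- The top word. -/
def wtop (i : ℤ) : Bool :=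
  decide (0 < i ∧ Even (Nat.log 2 i.toNat) ∧
    ds (i.toNat - 2 ^ Nat.log 2 i.toNat) < (Nat.unpair (Nat.log 2 i.toNat / 2)).1)

lemma below_top (k : ℕ) : Below (wd k) wtop := by
  intro r
  set e := 2 * Nat.pair k (r + 1) with he
  have he1 : r + 1 ≤ Nat.pair k (r + 1) := Nat.right_le_pair _ _
  have hr : r < 2 ^ (e - 1) := lt_of_lt_of_le Nat.lt_two_pow_self
    (Nat.pow_le_pow_right (by norm_num) (by omega))
  have hpow : (2 : ℕ) ^ e = 2 * 2 ^ (e - 1) := by
    rw [← pow_succ']; congr 1; omega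
  refine ⟨((2 ^ e : ℕ) : ℤ), fun i hi => ?_⟩
  obtain ⟨hi1, hi2⟩ := abs_le.1 hi
  rcases lt_or_ge i 0 with h | h
  · rw [wd_neg h]
    obtain ⟨q, hq⟩ : ∃ q : ℕ, (q : ℤ) = -i := ⟨(-i).toNat, by omega⟩
    have hq1 : 1 ≤ q := by omega
    have hqr : q ≤ r := by omega
    have e1 : i + ((2 ^ e : ℕ) : ℤ) = ((2 ^ e - q : ℕ) : ℤ) := by
      rw [Nat.cast_sub (by omega)]; linarith
    have hlog : Nat.log 2 (2 ^ e - q) = e - 1 := by
      apply Nat.log_eq_of_pow_le_of_lt_pow
      · omega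
      · rw [show e - 1 + 1 = e by omega]; omega
    rw [e1, wtop]
    symm
    rw [decide_eq_false_iff_not, Int.toNat_natCast, hlog]
    rintro ⟨_, h2, _⟩
    obtain ⟨y, hy⟩ := h2
    omega
  · obtain ⟨x, rfl⟩ : ∃ x : ℕ, (x : ℤ) = i := ⟨i.toNat, by omega⟩
    have hx : x ≤ r := by omega
    have e1 : (x : ℤ) + ((2 ^ e : ℕ) : ℤ) = ((2 ^ e + x : ℕ) : ℤ) := by push_cast; ring
    have hlog : Nat.log 2 (2 ^ e + x) = e := by
      apply Nat.log_eq_of_pow_le_of_lt_pow
      · omega
      · rw [pow_succ]; omega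
    have hhalf : e / 2 = Nat.pair k (r + 1) := by omega
    rw [e1, wtop, wd_nat, Int.toNat_natCast, hlog, hhalf, Nat.unpair_pair, Nat.add_sub_cancel_left]
    have h1 : (0 : ℤ) < ((2 ^ e + x : ℕ) : ℤ) := by
      have : 0 < 2 ^ e + x := by positivity
      exact_mod_cast this
    have h2 : Even e := ⟨Nat.pair k (r + 1), by omega⟩
    simp only [h1, h2, true_and]

lemma not_top_below (k : ℕ) : ¬ Below wtop (wd k) := fun h =>
  not_below (Nat.lt_succ_self k) ((below_top (k + 1)).trans h)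

end Pool.Agent.R190.Fee
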