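import Mathlib
import Pool.Agent.R190.Fee.Words

set_option autoImplicit false

open Set

namespace Pool.Agent.R190.Fee

variable {n : ℕ}

namespace Two

variable (C : Two n)

/-- the leaf closure of a word -/
def cl (u : ℤ → Bool) : Set (RTree n) := closure (leaf (C.line u))

lemma cl_eq (u : ℤ → Bool) : C.cl u = C.line '' {v | Below v u} := C.closure_leaf_line u

lemma mem_cl {u v : ℤ → Bool} : C.line v ∈ C.cl u ↔ Below v u := by
  rw [cl_eq]
  constructor
  · rintro ⟨w, hw, e⟩
    rwa [C.line_inj e] at hw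
  · exact fun h => ⟨v, h, rfl⟩

lemma cl_subset {u v : ℤ → Bool} : C.cl u ⊆ C.cl v ↔ Below u v := by
  constructor
  · intro h
    exact C.mem_cl.1 (h (C.mem_cl.2 (Below.refl u)))
  · intro h S hS
    rw [cl_eq] at hS
    obtain ⟨w, hw, rfl⟩ := hS
    exact C.mem_cl.2 (Below.trans hw h)

lemma cl_shift (j : ℤ) (u : ℤ → Bool) : C.cl (shift j u) = C.cl u :=
  Subset.antisymm (C.cl_subset.2 (shift_below j u)) (C.cl_subset.2 (below_shift j u))

lemma isClosed_cl (u : ℤ → Bool) : IsClosed (C.cl u) := isClosed_closure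

lemma saturated_cl (u : ℤ → Bool) : IsSaturated (C.cl u) := by
  intro S hS
  rw [cl_eq] at hS
  obtain ⟨w, hw, rfl⟩ := hS
  rw [leaf_line]
  rintro _ ⟨_, ⟨j, rfl⟩, rfl⟩
  exact C.mem_cl.2 ((shift_below j w).trans hw)

lemma mem_sub {u : ℤ → Bool} {S : RTree n} :
    S ∈ substructure (C.cl u) ↔ ∃ v, S = C.line v ∧ Below v u ∧ ¬ Below u v := by
  constructor
  · rintro ⟨h1, h2⟩
    rw [cl_eq] at h1
    obtain ⟨v, hv, rfl⟩ := h1
    exact ⟨v, rfl, hv, fun h => h2 (C.cl_subset.2 h)⟩
  · rintro ⟨v, rfl, h1, h2⟩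
    exact ⟨C.mem_cl.2 h1, fun h => h2 (C.cl_subset.1 h)⟩

/-- the substructure of the closure of level `k + 1` is the closure of level `k` -/
lemma sub_succ (k : ℕ) : substructure (C.cl (wd (k + 1))) = C.cl (wd k) := by
  ext S
  rw [mem_sub, cl_eq]
  constructor
  · rintro ⟨v, rfl, h1, h2⟩
    obtain ⟨j, hj, s, rfl⟩ := below_wd h1
    refine ⟨_, ?_, rfl⟩
    rcases Nat.lt_or_ge j (k + 1) with h | h
    · exact (shift_below s _).trans (below_mono (by omega))
    · exfalso
      have : j = k + 1 := by omega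
      subst this
      exact h2 (below_shift _ _)
  · rintro ⟨v, hv, rfl⟩
    exact ⟨v, rfl, Below.trans hv (below_succ k),
      fun h => not_below (Nat.lt_succ_self k) (h.trans hv)⟩

lemma cl_wd_zero : C.cl (wd 0) = {C.line (wd 0)} := by
  ext S
  rw [cl_eq]
  constructor
  · rintro ⟨v, hv, rfl⟩
    obtain ⟨j, hj, s, rfl⟩ := below_wd hv
    have hj0 : j = 0 := by omega
    subst hj0
    have : shift s (wd 0) = wd 0 := by ext i; simp [shift, wd_zero]
    rw [this]; rfl
  · rintro rfl
    exact ⟨_, Below.refl _, rfl⟩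

lemma line_mem_leaf (u : ℤ → Bool) : C.line u ∈ leaf (C.line u) := by
  rw [leaf_line]
  exact ⟨u, ⟨0, by ext i; simp [shift]⟩, rfl⟩

lemma leaf_wd_zero : leaf (C.line (wd 0)) = {C.line (wd 0)} := by
  apply Subset.antisymm
  · rw [← C.cl_wd_zero]; exact subset_closure
  · rintro _ rfl; exact C.line_mem_leaf _

lemma mem_leaf_zero {T : RTree n} (h : C.line (wd 0) ∈ leaf T) : T = C.line (wd 0) := by
  obtain ⟨g, hg, e⟩ := h
  have : T ∈ leaf (C.line (wd 0)) := by
    refine ⟨g⁻¹, ?_, ?_⟩
    · rw [e]; exact ⟨1, T.one_mem, by simp⟩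
    · rw [e, image_image]
      simp
  rwa [leaf_wd_zero] at this

/-- closures of words above a nonzero level are not at level zero -/
lemma not_level_zero {u : ℤ → Bool} (h0 : Below (wd 0) u) (h1 : Below (wd 1) u) :
    ¬ (IsCompactLeaf (C.cl u) ∨ IsMinimalSet (C.cl u)) := by
  have hne : C.line (wd 1) ≠ C.line (wd 0) := by
    intro h
    have := C.line_inj h
    exact not_below Nat.zero_lt_one (this ▸ Below.refl (wd 0) : Below (wd 1) (wd 0))
  rintro (⟨T, hT, -⟩ | ⟨-, hmin⟩)
  · have h2 : C.line (wd 0) ∈ leaf T := hT ▸ C.mem_cl.2 h0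
    have h3 := C.mem_leaf_zero h2
    have h4 : C.line (wd 1) ∈ leaf T := hT ▸ C.mem_cl.2 h1
    rw [h3, leaf_wd_zero] at h4
    exact hne h4
  · have h2 := hmin (C.cl (wd 0)) (C.cl_subset.2 h0) ⟨_, C.mem_cl.2 (Below.refl _)⟩
      (C.isClosed_cl _) (C.saturated_cl _)
    have h4 : C.line (wd 1) ∈ C.cl (wd 0) := h2 ▸ C.mem_cl.2 h1
    rw [cl_wd_zero] at h4
    exact hne h4

lemma atLevel_zero_iff (M : Set (RTree n)) : AtLevel 0 M ↔ IsCompactLeaf M ∨ IsMinimalSet M := by
  rw [AtLevel]

lemma atLevel_succ_iff (k : ℕ) (M : Set (RTree n)) : AtLevel (k + 1) M ↔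
    closure (substructure M) ⊂ M ∧
      (∀ S ∈ substructure M, ∃ j, ∃ _ : j ≤ k, AtLevel j (closure (leaf S))) ∧
      ∃ S ∈ substructure M, AtLevel k (closure (leaf S)) := by
  rw [AtLevel]

/-- the closure of the word of level `k` is at level `k` -/
lemma atLevel_wd (k : ℕ) : AtLevel k (C.cl (wd k)) := by
  induction k using Nat.strong_induction_on with
  | _ k ih =>
    cases k with
    | zero =>
      rw [atLevel_zero_iff]
      refine Or.inl ⟨C.line (wd 0), ?_, ?_⟩
      · rw [cl_wd_zero, leaf_wd_zero]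
      · rw [leaf_wd_zero]; exact finite_singleton _
    | succ k =>
      rw [atLevel_succ_iff, sub_succ]
      refine ⟨?_, ?_, ?_⟩
      · rw [(C.isClosed_cl _).closure_eq]
        refine ⟨C.cl_subset.2 (below_succ k), fun h => ?_⟩
        exact not_below (Nat.lt_succ_self k) (C.cl_subset.1 h)
      · intro S hS
        rw [cl_eq] at hS
        obtain ⟨v, hv, rfl⟩ := hS
        obtain ⟨j, hj, s, rfl⟩ := below_wd hv
        refine ⟨j, hj, ?_⟩
        change AtLevel j (C.cl (shift s (wd j)))
        rw [cl_shift]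
        exact ih j (by omega)
      · refine ⟨C.line (wd k), C.mem_cl.2 (Below.refl _), ?_⟩
        exact ih k (Nat.lt_succ_self k)

/-- and at no other level -/
lemma level_unique {k m : ℕ} (h : AtLevel m (C.cl (wd k))) : m = k := by
  induction k using Nat.strong_induction_on generalizing m with
  | _ k ih =>
    cases k with
    | zero =>
      cases m with
      | zero => rfl
      | succ m =>
        exfalso
        rw [atLevel_succ_iff] at h
        obtain ⟨-, -, S, hS, -⟩ := h
        rw [mem_sub] at hS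
        obtain ⟨v, -, h1, h2⟩ := hS
        obtain ⟨j, hj, s, rfl⟩ := below_wd h1
        have : j = 0 := by omega
        subst this
        exact h2 (below_shift _ _)
    | succ k =>
      cases m with
      | zero =>
        exfalso
        rw [atLevel_zero_iff] at h
        exact C.not_level_zero (below_mono (Nat.zero_le _)) (below_mono (by omega)) h
      | succ m =>
        rw [atLevel_succ_iff, sub_succ] at h
        obtain ⟨-, h1, S, hS, h2⟩ := h
        obtain ⟨j, hj, h3⟩ := h1 (C.line (wd k)) (C.mem_cl.2 (Below.refl _))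
        have hjk : j = k := ih k (Nat.lt_succ_self k) h3
        rw [cl_eq] at hS
        obtain ⟨v, hv, rfl⟩ := hS
        obtain ⟨i, hi, s, rfl⟩ := below_wd hv
        have h4 : AtLevel m (C.cl (wd i)) := by
          rw [← C.cl_shift s]; exact h2
        have h5 := ih i (by omega) h4
        omega

/-- the closure of the top word is at no finite level -/
lemma top_infinite (k : ℕ) : ¬ AtLevel k (C.cl wtop) := by
  intro h
  cases k with
  | zero =>
    rw [atLevel_zero_iff] at h
    exact C.not_level_zero (below_top 0) (below_top 1) h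
  | succ k =>
    rw [atLevel_succ_iff] at h
    obtain ⟨j, hj, h1⟩ := h.2.1 (C.line (wd (k + 1)))
      (C.mem_sub.2 ⟨_, rfl, below_top _, not_top_below _⟩)
    have := C.level_unique h1
    omega

end Two

end Pool.Agent.R190.Fee
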